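import Pool.Agent.K4H33.SR.Real

/-! The main theorem over real quadratic fields. -/

set_option autoImplicit false
set_option linter.style.haveILetI false

namespace Pool.Agent.K4H33.SR
open NumberField Module IntermediateField Pool.Agent.K4H33.SK
open Pool.Agent.K4H33.SK.Stmt (Sub Ideals nrm Cop prd principal cntAll PrimesOver)

/-! ### General lemmas -/

lemma hol_unique {a a' : ℕ → ℂ} {Z Z' : ℂ → ℂ} (h : DifferentiableOn ℂ Z {1}ᶜ)
    (h' : DifferentiableOn ℂ Z' {1}ᶜ) (hs : ∀ s : ℂ, 1 < s.re → LSeriesHasSum a s (Z s))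
    (hs' : ∀ s : ℂ, 1 < s.re → LSeriesHasSum a' s (Z' s)) (haa : ∀ n, n ≠ 0 → a n = a' n) :
    deriv Z 0 = deriv Z' 0 := by
  have ho : IsOpen ({1}ᶜ : Set ℂ) := isOpen_compl_singleton
  have h1 : Set.EqOn Z Z' {1}ᶜ := by
    refine AnalyticOnNhd.eqOn_of_preconnected_of_eventuallyEq (z₀ := 2)
      (h.analyticOnNhd ho) (h'.analyticOnNhd ho) ?_ (by simp) ?_
    · refine (isConnected_compl_singleton_of_one_lt_rank ?_ 1).isPreconnected
      rw [Complex.rank_real_complex]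
      norm_num
    · have h1 : {s : ℂ | 1 < s.re} ∈ nhds (2 : ℂ) :=
        (isOpen_lt continuous_const Complex.continuous_re).mem_nhds (by simp)
      filter_upwards [h1] with s hs1
      have e3 := (LSeriesHasSum_congr s (Z s) (fun {n} hn => haa n hn)).1 (hs s hs1)
      exact HasSum.unique e3 (hs' s hs1)
  apply Filter.EventuallyEq.deriv_eq
  have h2 : ({1}ᶜ : Set ℂ) ∈ nhds (0 : ℂ) := isOpen_compl_singleton.mem_nhds (by simp)
  filter_upwards [h2] with s hs
  exact h1 hs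

/-- Kronecker's theorem. -/
lemma kronecker {x : Qbar} (hx : IsIntegral ℤ x) (h : ∀ w : Qbar →+* ℂ, ‖w x‖ = 1) :
    ∃ n : ℕ, 0 < n ∧ x ^ n = 1 := by
  have hxq : IsIntegral ℚ x := Algebra.IsAlgebraic.isAlgebraic (R := ℚ) x |>.isIntegral
  haveI : FiniteDimensional ℚ ℚ⟮x⟯ := adjoin.finiteDimensional hxq
  haveI : NumberField ℚ⟮x⟯ := ⟨⟩
  let y : ℚ⟮x⟯ := ⟨x, mem_adjoin_simple_self ℚ x⟩
  have hy : IsIntegral ℤ y := by
    rw [← isIntegral_algebraMap_iff (B := Qbar) (algebraMap ℚ⟮x⟯ Qbar).injective]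
    exact hx
  have hn : ∀ φ : ℚ⟮x⟯ →+* ℂ, ‖φ y‖ = 1 := by
    intro φ
    letI : Algebra ℚ⟮x⟯ ℂ := φ.toAlgebra
    haveI : Algebra.IsAlgebraic ℚ⟮x⟯ Qbar := Algebra.IsAlgebraic.tower_top (K := ℚ) ℚ⟮x⟯
    let w : Qbar →ₐ[ℚ⟮x⟯] ℂ := IsAlgClosed.lift
    have h1 := h w.toRingHom
    have h2 : w.toRingHom x = φ y := w.commutes y
    rwa [h2] at h1
  obtain ⟨n, hn0, hn1⟩ := NumberField.Embeddings.pow_eq_one_of_norm_eq_one ℚ⟮x⟯ ℂ hy hn
  refine ⟨n, hn0, ?_⟩
  have h3 := congrArg (algebraMap ℚ⟮x⟯ Qbar) hn1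
  rw [map_pow, map_one] at h3
  exact h3

/-! ### The inputs -/

/-- Artin's formalism: for characters `χ` of `Gal(H/K)` and `ψ` of `Gal(E/k)` which agree on the
automorphisms fixing both fields and take the value `-1` at `a`, one has
`L(s, χ) = L(s, ψ)`. It is stated on the coefficients of the partial zeta functions. -/
structure ArtinFormalism (K k E H : Sub) [NumberField K] [NumberField k] (𝔣 : Ideals K)
    (artK : Ideals K → GQ) (𝔪 : Ideals k) (art : Ideals k → GQ) (a : GQ) : Prop where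
  common : ∀ σ : GQ, Fixes K σ → Fixes k σ → ∀ n : ℕ,
    (Stmt.cnt K H 𝔣 artK σ n : ℤ) - Stmt.cnt K H 𝔣 artK (a * σ) n =
      (Stmt.cnt k E 𝔪 art σ n : ℤ) - Stmt.cnt k E 𝔪 art (a * σ) n
  swap : ∀ τ : GQ, Fixes k τ → ¬ Fixes K τ → ∀ n : ℕ,
    Stmt.cnt k E 𝔪 art τ n = Stmt.cnt k E 𝔪 art (a * τ) n

/-- Continuation of the partial zeta functions `Z σ` of `H/K`; the sums `Z σ + Z (a σ)`, which are
the partial zeta functions of the totally real field fixed by `a`, vanish to order at least two at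
zero. -/
def OrderTwo (K H : Sub) [NumberField K] (𝔣 : Ideals K) (artK : Ideals K → GQ) (a : GQ) : Prop :=
  ∃ Z : GQ → ℂ → ℂ, ∀ σ : GQ, Fixes K σ →
    IsZeta (Stmt.cnt K H 𝔣 artK σ) (Z σ) ∧ Z σ 0 = 0 ∧ deriv (Z σ) 0 + deriv (Z (a * σ)) 0 = 0

/-- The rank one abelian Stark conjecture, in Tate's refined form, for an abelian extension `H` of
the real quadratic field `K`, the real place given by `ι`, which splits completely in `H`, and the
set `S` consisting of the infinite places and the primes dividing `𝔣`: there is a unit `ε` of `H`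
with `ι (σ ε) = exp (- 2 ζ'(σ, 0))`, of absolute value one at all places above the other infinite
place of `K`, whose square root generates an abelian extension of `K`. (`H` has two roots of
unity.) -/
def StarkReal (ι : Qbar →+* ℂ) (K H : Sub) [NumberField K] (𝔣 : Ideals K)
    (art : Ideals K → GQ) : Prop :=
  ∃ (Z : GQ → ℂ → ℂ) (ε : Qbar), ε ∈ H ∧ ε ≠ 0 ∧
    (∀ σ : GQ, Fixes K σ → IsZeta (Stmt.cnt K H 𝔣 art σ) (Z σ) ∧ Z σ 0 = 0 ∧
      ι (σ ε) = Complex.exp (-2 * deriv (Z σ) 0)) ∧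
    IsIntegral ℤ ε ∧ IsIntegral ℤ ε⁻¹ ∧
    (∀ w : Qbar →+* ℂ, (∃ x ∈ K, w x ≠ ι x) → ‖w ε‖ = 1) ∧ AbelianRoot K 2 ε

section

variable {ι : Qbar →+* ℂ} {K k E H : Sub} {a c c' g : GQ} [NumberField K] [NumberField k]

omit [NumberField K] in
lemma exists_kappaR (h : Fields ι K k E H) (t : IsTwist ι K k a c c' g) {𝔪 : Ideals k}
    {art : Ideals k → GQ} {W : ℕ} (hW : 0 < W) {Z : GQ → ℂ → ℂ} {ε : Qbar} (hε : ε ∈ E)
    (hε0 : ε ≠ 0) (hlim : LimitFormula ι k W (Stmt.cnt k E 𝔪 art) Z ε)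
    (hint : ∀ σ : GQ, Fixes k σ → IsIntegral ℤ (σ ε / ε)) (hab : AbelianRoot k W ε) :
    ∃ κ : Qbar, κ ∈ E ∧ κ ≠ 0 ∧ IsIntegral ℤ κ ∧ IsIntegral ℤ κ⁻¹ ∧ (κ * a κ) ^ W = 1 ∧
      ∀ g : GQ, Fixes k g → (Real.log (‖ι (g κ)‖ ^ 2) : ℂ) =
        -(deriv (Z g) 0 - deriv (Z (a * g)) 0) := by
  obtain ⟨lam, hlam⟩ := IsAlgClosed.exists_pow_nat_eq ε hW
  have hlam0 : lam ≠ 0 := by
    rintro rfl
    rw [zero_pow hW.ne'] at hlam
    exact hε0 hlam.symm
  have hak : Fixes k a := a_k h t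
  set κ : Qbar := lam / a lam with hκ
  have hal0 : a lam ≠ 0 := by simpa using hlam0
  have hκ0 : κ ≠ 0 := div_ne_zero hlam0 hal0
  have hκW : κ ^ W = ε / a ε := by rw [hκ, div_pow, ← map_pow, hlam]
  have haε0 : a ε ≠ 0 := by simpa using hε0
  -- membership
  have hκL : κ ∈ E := by
    apply mem_of_fixed
    intro σ hσ
    have hσk : Fixes k σ := hσ.mono h.k_le
    set ξ : Qbar := σ lam / lam with hξ
    have hξW : ξ ^ W = 1 := by
      rw [hξ, div_pow, ← map_pow, hlam, hσ ε hε, div_self hε0]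
    have h1 : σ lam = ξ * lam := by rw [hξ, div_mul_cancel₀ _ hlam0]
    have h2 : σ (a lam) = ξ * a lam := by
      rw [hab lam hlam σ a hσk hak, h1, map_mul, a_root h t hW.ne' hξW]
    have hξ0 : ξ ≠ 0 := by
      rintro h
      rw [h, zero_pow hW.ne'] at hξW
      exact zero_ne_one hξW
    rw [hκ, map_div₀, h1, h2, mul_div_mul_left _ _ hξ0]
  -- integrality
  have hκi' : IsIntegral ℤ κ⁻¹ := by
    refine IsIntegral.of_pow hW ?_
    rw [inv_pow, hκW, inv_div]
    exact hint a hak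
  have haa : a (a ε) = ε := a_sq h t hε
  have hκi : IsIntegral ℤ κ := by
    refine IsIntegral.of_pow hW ?_
    rw [hκW]
    have h1 : ε / a ε = a (a ε / ε) := by rw [map_div₀, haa]
    rw [h1]
    exact (hint a hak).map (a : Qbar →+* Qbar).toIntAlgHom
  refine ⟨κ, hκL, hκ0, hκi, hκi', ?_, ?_⟩
  · rw [mul_pow, ← map_pow, hκW, map_div₀, haa, div_mul_div_cancel₀ haε0, div_self hε0]
  · intro g hg
    have h1 := (hlim g hg).2.2
    have h2 := (hlim (a * g) (hak.mul hg)).2.2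
    have h0 : g (a ε) = a (g ε) := central h t (a_K h t) hak g hε
    have hn1 : ‖ι (g ε)‖ ^ 2 ≠ 0 := by
      apply pow_ne_zero
      rw [norm_ne_zero_iff, Ne, map_eq_zero]
      simpa using hε0
    have hn2 : ‖ι ((a * g) ε)‖ ^ 2 ≠ 0 := by
      apply pow_ne_zero
      rw [norm_ne_zero_iff, Ne, map_eq_zero]
      simpa using hε0
    have h3 : (W : ℝ) * Real.log (‖ι (g κ)‖ ^ 2) =
        Real.log (‖ι (g ε)‖ ^ 2) - Real.log (‖ι ((a * g) ε)‖ ^ 2) := by
      rw [← Real.log_pow, ← Real.log_div hn1 hn2, ← pow_mul, mul_comm 2 W, pow_mul, ← norm_pow,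
        ← map_pow, ← map_pow, hκW, map_div₀, map_div₀, norm_div, div_pow, h0]
      rfl
    have h4 : (W : ℂ) * (Real.log (‖ι (g κ)‖ ^ 2) : ℂ) =
        -(W : ℂ) * deriv (Z g) 0 - -(W : ℂ) * deriv (Z (a * g)) 0 := by
      rw [← h1, ← h2]
      exact_mod_cast h3
    have hW' : (W : ℂ) ≠ 0 := Nat.cast_ne_zero.2 hW.ne'
    apply mul_left_cancel₀ hW'
    rw [h4]
    ring

/-- **Stark units over real quadratic fields.** -/
theorem stark_real (h : Fields ι K k E H) (t : IsTwist ι K k a c c' g) (𝔪 : Ideals k)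
    (art : Ideals k → GQ) (𝔣 : Ideals K) (artK : Ideals K → GQ) {W : ℕ}
    (hW : IsTorsionOrder E W) (hS : Stmt.StarkImQuad ι k E 𝔪 art W)
    (hA : ArtinFormalism K k E H 𝔣 artK 𝔪 art a) (hO : OrderTwo K H 𝔣 artK a) :
    StarkReal ι K H 𝔣 artK := by
  obtain ⟨Z, ε, hε, hε0, hlim, hint, hab⟩ := hS
  obtain ⟨κ, hκE, hκ0, hκi, hκi', hκa, hlog⟩ :=
    exists_kappaR h t hW.1 hε hε0 hlim hint hab
  obtain ⟨ZK, hZK⟩ := hO
  have hcK := c_K h t
  have haK := a_K h t
  have hak := a_k h t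
  have hcc : ∀ x, c (c x) = x := fun x => by
    rw [← AlgEquiv.mul_apply, cc h t, AlgEquiv.one_apply]
  have hcκE : c κ ∈ E := normal_mem h.normal c hκE
  have hcκ0 : c κ ≠ 0 := by simpa using hκ0
  -- `c` is trivial on `H`
  have hcH : ∀ x ∈ H, c x = x := by
    intro x hx
    apply ι.injective
    rw [t.conj]
    exact Complex.conj_eq_iff_im.2 ((h.mem_H x).1 hx).2
  have hHE : ∀ x ∈ H, x ∈ E := fun x hx => ((h.mem_H x).1 hx).1
  -- the sign of the values
  have hval : ∀ σ : GQ, Fixes K σ → ι (σ (κ * c κ)) = ((‖ι (σ κ)‖ ^ 2 : ℝ) : ℂ) := by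
    intro σ hσ
    have h1 : σ (c κ) = c (σ κ) := h.abelian_K σ c hσ hcK κ hκE
    rw [map_mul, map_mul, h1, t.conj, Complex.mul_conj, Complex.normSq_eq_norm_sq]
  -- absolute value one away from `K`
  have hone : ∀ τ : GQ, ‖ι (τ κ)‖ * ‖ι (τ (a κ))‖ = 1 := by
    intro τ
    rw [← norm_mul, ← map_mul, ← map_mul]
    refine Complex.norm_eq_one_of_pow_eq_one (n := W) ?_ hW.1.ne'
    rw [← map_pow, ← map_pow, hκa, map_one, map_one]
  have hswap : ∀ τ : GQ, ¬ Fixes K τ → ‖ι (τ (c κ))‖ = ‖ι (τ (a κ))‖ := by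
    intro τ hτ
    rw [conj_swap h t hτ hκE, t.conj, ← central h t haK hak τ hκE]
    exact Complex.norm_conj _
  -- `κ` has absolute value one away from `K`
  have hκone : ∀ τ : GQ, ¬ Fixes K τ → ‖ι (τ κ)‖ = 1 := by
    have key : ∀ τ : GQ, Fixes k τ → ¬ Fixes K τ → ‖ι (τ κ)‖ = 1 := by
      intro τ hτk hτK
      have h1 := hlog τ hτk
      have h2 := (isZeta_deriv (hlim τ hτk).1 (hlim (a * τ) (hak.mul hτk)).1
        (fun n _ => hA.swap τ hτk hτK n)).1
      rw [h2, sub_self, neg_zero] at h1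
      have h3 : Real.log (‖ι (τ κ)‖ ^ 2) = 0 := by exact_mod_cast h1
      have h4 : 0 < ‖ι (τ κ)‖ := by
        rw [norm_pos_iff, Ne, map_eq_zero]
        simpa using hκ0
      have h5 : ‖ι (τ κ)‖ ^ 2 = 1 := by
        rcases Real.log_eq_zero.1 h3 with h | h | h
        · exact absurd h (pow_pos h4 2).ne'
        · exact h
        · have := pow_pos h4 2
          linarith
      exact (pow_eq_one_iff_of_nonneg h4.le two_ne_zero).1 h5
    intro τ hτ
    by_cases hk : Fixes k τ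
    · exact key τ hk hτ
    · have h1 : Fixes k (c * τ) := quad h.deg_k (c_k h t) hk
      have h2 : ¬ Fixes K (c * τ) := by
        intro h3
        apply hτ
        have h4 := hcK.mul h3
        rwa [← mul_assoc, cc h t, one_mul] at h4
      have h3 := key _ h1 h2
      rw [AlgEquiv.mul_apply, t.conj] at h3
      rw [← h3]
      exact (Complex.norm_conj _).symm
  refine ⟨ZK, κ * c κ, ?_, mul_ne_zero hκ0 hcκ0, ?_, ?_, ?_, ?_, ?_⟩
  · -- membership
    rw [h.mem_H]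
    refine ⟨E.mul_mem hκE hcκE, ?_⟩
    have h1 := hval 1 (Fixes.one K)
    rw [AlgEquiv.one_apply] at h1
    rw [h1, Complex.ofReal_im]
  · -- the values
    have key : ∀ σ : GQ, Fixes K σ → Fixes k σ →
        ι (σ (κ * c κ)) = Complex.exp (-2 * deriv (ZK σ) 0) := by
      intro σ hσ hσk
      have e1 := hZK σ hσ
      have e2 := hZK (a * σ) (haK.mul hσ)
      have f1 := hlim σ hσk
      have f2 := hlim (a * σ) (hak.mul hσk)
      have h1 : deriv (fun s => ZK σ s - ZK (a * σ) s) 0 = deriv (fun s => Z σ s - Z (a * σ) s) 0 := by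
        refine hol_unique (e1.1.1.sub e2.1.1) (f1.1.1.sub f2.1.1)
          (fun s hs => (e1.1.2 s hs).sub (e2.1.2 s hs))
          (fun s hs => (f1.1.2 s hs).sub (f2.1.2 s hs)) (fun n _ => ?_)
        have h2 := hA.common σ hσ hσk n
        simp only [Pi.sub_apply]
        exact_mod_cast congrArg (Int.cast : ℤ → ℂ) h2
      have hn : ({1}ᶜ : Set ℂ) ∈ nhds (0 : ℂ) := isOpen_compl_singleton.mem_nhds (by simp)
      have d1 := (e1.1.1.differentiableAt hn)
      have d2 := (e2.1.1.differentiableAt hn)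
      have d3 := (f1.1.1.differentiableAt hn)
      have d4 := (f2.1.1.differentiableAt hn)
      rw [deriv_fun_sub d1 d2, deriv_fun_sub d3 d4] at h1
      have h2 : -2 * deriv (ZK σ) 0 = (Real.log (‖ι (σ κ)‖ ^ 2) : ℂ) := by
        rw [hlog σ hσk, ← h1]
        linear_combination (-1 : ℂ) * e1.2.2
      have h4 : 0 < ‖ι (σ κ)‖ := by
        rw [norm_pos_iff, Ne, map_eq_zero]
        simpa using hκ0
      rw [h2, hval σ hσ, ← Complex.ofReal_exp, Real.exp_log (pow_pos h4 2)]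
    intro σ hσ
    refine ⟨(hZK σ hσ).1, (hZK σ hσ).2.1, ?_⟩
    by_cases hσk : Fixes k σ
    · exact key σ hσ hσk
    · have h1 : Fixes k (σ * c) := quad h.deg_k hσk (c_k h t)
      have h2 : Fixes K (σ * c) := hσ.mul hcK
      have h3 := key _ h2 h1
      have h4 : (σ * c) (κ * c κ) = σ (κ * c κ) := by
        rw [AlgEquiv.mul_apply, map_mul c, hcc, mul_comm]
      rw [h4] at h3
      rw [h3]
      have h5 := (isZeta_deriv (hZK (σ * c) h2).1 (hZK σ hσ).1 (fun n _ =>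
        cnt_congr K H 𝔣 artK (g := σ * c) (g' := σ) (fun x hx => by
          rw [AlgEquiv.mul_apply, hcH x hx]) n)).1
      rw [h5]
  · exact hκi.mul (hκi.map (c : Qbar →+* Qbar).toIntAlgHom)
  · rw [mul_inv, ← map_inv₀]
    exact hκi'.mul (hκi'.map (c : Qbar →+* Qbar).toIntAlgHom)
  · -- the other place
    intro w hw
    obtain ⟨τ, hτ⟩ := exists_lift ι w
    have h1 : ¬ Fixes K τ := by
      intro h2
      obtain ⟨x, hx, hx2⟩ := hw
      apply hx2
      rw [hτ, h2 x hx]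
    rw [hτ, map_mul, map_mul, norm_mul, hswap τ h1]
    exact hone τ
  · -- the abelian root
    intro mu hmu σ τ hσ hτ
    -- `c κ / κ` is a root of unity
    have h1 : ∃ n : ℕ, 0 < n ∧ (c κ / κ) ^ n = 1 := by
      refine kronecker ?_ ?_
      · rw [div_eq_mul_inv]
        exact (hκi.map (c : Qbar →+* Qbar).toIntAlgHom).mul hκi'
      · intro w
        obtain ⟨τ, hτ⟩ := exists_lift ι w
        have hτκ : ‖ι (τ κ)‖ ≠ 0 := by
          rw [norm_ne_zero_iff, Ne, map_eq_zero]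
          simpa using hκ0
        rw [hτ, map_div₀, map_div₀, norm_div]
        by_cases h2 : Fixes K τ
        · have h3 : τ (c κ) = c (τ κ) := h.abelian_K τ c h2 hcK κ hκE
          rw [h3, t.conj, Complex.norm_conj, div_self hτκ]
        · rw [hswap τ h2]
          have h3 := hκone τ h2
          have h4 := hone τ
          rw [h3, one_mul] at h4
          rw [h3, h4, div_one]
    obtain ⟨n, hn, h2⟩ := h1
    -- `mu / κ` is a root of unity
    set η : Qbar := mu / κ with hη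
    have hη2 : η ^ (2 * n) = 1 := by
      have h3 : η ^ 2 = c κ / κ := by
        rw [hη, div_pow, hmu]
        field_simp
      rw [pow_mul, h3, h2]
    have hmu2 : mu = η * κ := by rw [hη, div_mul_cancel₀ _ hκ0]
    have hpos : 0 < 2 * n := by omega
    obtain ⟨i, -, hi⟩ := exists_pow hpos σ
    obtain ⟨j, -, hj⟩ := exists_pow hpos τ
    have h3 : σ (τ η) = τ (σ η) := by
      rw [hi η hη2, hj η hη2, map_pow, map_pow, hi η hη2, hj η hη2, ← pow_mul, ← pow_mul, mul_comm]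
    rw [hmu2, map_mul, map_mul, map_mul, map_mul, h3, h.abelian_K σ τ hσ hτ κ hκE]

end

end Pool.Agent.K4H33.SR
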