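import Pool.Agent.K4H33.SR.MainR

/-! Enlarging the set of places, and subfields, over real quadratic fields. -/

set_option autoImplicit false
set_option linter.style.haveILetI false

namespace Pool.Agent.K4H33.SR
open NumberField Module IntermediateField Pool.Agent.K4H33.SK
open Pool.Agent.K4H33.SK.Stmt (Sub Ideals nrm Cop prd principal cntAll PrimesOver)

lemma starkReal_modulus {ι : Qbar →+* ℂ} {K H : Sub} [NumberField K]
    {𝔤 𝔤' : Ideals K} {art : Ideals K → GQ}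
    (h : ∀ 𝔟 : Ideals K, IsCoprime 𝔟 𝔤 ↔ IsCoprime 𝔟 𝔤') (hS : StarkReal ι K H 𝔤 art) :
    StarkReal ι K H 𝔤' art := by
  obtain ⟨Z, ε, h1, h2, h3, h4⟩ := hS
  refine ⟨Z, ε, h1, h2, ?_, h4⟩
  intro σ hσ
  have h5 : Stmt.cnt K H 𝔤' art σ = Stmt.cnt K H 𝔤 art σ := by
    funext n
    exact (cnt_modulus art h σ n).symm
  rw [h5]
  exact h3 σ hσ

lemma starkReal_prime {ι : Qbar →+* ℂ} {K H M : Sub} [NumberField K]
    {𝔪 𝔤 P : Ideals K} {art : Ideals K → GQ} (hart : SK.IsArtin K M 𝔪 art) (hLM : H ≤ M)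
    (hKH : K ≤ H) (hc : ∀ 𝔟 : Ideals K, IsCoprime 𝔟 𝔤 → IsCoprime 𝔟 𝔪) (hP : P.IsPrime)
    (hP0 : P ≠ ⊥) (hPg : IsCoprime P 𝔤) (hS : StarkReal ι K H 𝔤 art) :
    StarkReal ι K H (𝔤 * P) art := by
  obtain ⟨Z, ε, h1, h2, h3, h4, h5, h6, h7⟩ := hS
  have hρ : Fixes K (art P)⁻¹ := Fixes.inv (hart.fix P (hc P hPg))
  set ρ : GQ := (art P)⁻¹ with hρdef
  have hρ0 : ρ ε ≠ 0 := by simpa using h2
  have hρH : ρ ε ∈ H := by
    apply mem_of_fixed
    intro σ hσ
    rw [comm_of_root two_pos h7 (hσ.mono hKH) hρ, hσ ε h1]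
  have hPn : Ideal.absNorm P ≠ 0 := by
    rw [Ne, Ideal.absNorm_eq_zero_iff]
    exact hP0
  have hPn' : (Ideal.absNorm P : ℂ) ≠ 0 := Nat.cast_ne_zero.2 hPn
  have hd : Differentiable ℂ (fun s : ℂ => (Ideal.absNorm P : ℂ) ^ (-s)) :=
    (differentiable_id.neg).const_cpow (Or.inl hPn')
  refine ⟨fun σ s => Z σ s - (Ideal.absNorm P : ℂ) ^ (-s) * Z (ρ * σ) s, ε / ρ ε,
    H.div_mem h1 hρH, div_ne_zero h2 hρ0, ?_, ?_, ?_, ?_, abelianRoot_div two_pos h2 h7 hρ⟩
  · intro σ hσ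
    have g1 := h3 σ hσ
    have g2 := h3 (ρ * σ) (hρ.mul hσ)
    refine ⟨⟨g1.1.1.sub (hd.differentiableOn.mul g2.1.1), ?_⟩, ?_, ?_⟩
    · intro s hs
      have h3 := (g1.1.2 s hs).sub (hasSum_shift hPn (g2.1.2 s hs))
      refine (LSeriesHasSum_congr s _ (fun {n} _ => ?_)).1 h3
      have h4 := cnt_prime hart hLM hc hP hP0 hPg σ n
      have h5 : Stmt.cnt K H 𝔤 art σ n = Stmt.cnt K H (𝔤 * P) art σ n +
        (if Ideal.absNorm P ∣ n then Stmt.cnt K H 𝔤 art ((art P)⁻¹ * σ) (n / Ideal.absNorm P)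
          else 0) := h4
      rw [Pi.sub_apply, h5]
      push_cast
      split_ifs <;> ring
    · simp only
      rw [g1.2.1, g2.2.1]
      ring
    · have hn : ({1}ᶜ : Set ℂ) ∈ nhds (0 : ℂ) := isOpen_compl_singleton.mem_nhds (by simp)
      have d1 := (g1.1.1.differentiableAt hn).hasDerivAt
      have d2 := (g2.1.1.differentiableAt hn).hasDerivAt
      have d3 := (hd 0).hasDerivAt
      have h5 := (d1.sub (d3.mul d2)).deriv
      have h8 : deriv (fun s => Z σ s - (Ideal.absNorm P : ℂ) ^ (-s) * Z (ρ * σ) s) 0 =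
          deriv (Z σ) 0 - deriv (Z (ρ * σ)) 0 := by
        refine Eq.trans h5 ?_
        rw [g2.2.1, mul_zero, zero_add, neg_zero, Complex.cpow_zero, one_mul]
      rw [h8, map_div₀, map_div₀, comm_of_root two_pos h7 hσ hρ, g1.2.2]
      have h9 : ι (ρ (σ ε)) = ι ((ρ * σ) ε) := rfl
      rw [h9, g2.2.2, mul_sub, Complex.exp_sub]
  · rw [div_eq_mul_inv, ← map_inv₀]
    exact h4.mul (h5.map (ρ : Qbar →+* Qbar).toIntAlgHom)
  · rw [inv_div, div_eq_mul_inv]
    exact (h4.map (ρ : Qbar →+* Qbar).toIntAlgHom).mul h5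
  · intro w hw
    have h8 : ‖(w.comp (ρ : Qbar →+* Qbar)) ε‖ = 1 := by
      refine h6 _ ?_
      obtain ⟨x, hx, hx2⟩ := hw
      refine ⟨x, hx, ?_⟩
      have h9 : (w.comp (ρ : Qbar →+* Qbar)) x = w x := congrArg w (hρ x hx)
      rw [h9]
      exact hx2
    have h9 : (w.comp (ρ : Qbar →+* Qbar)) ε = w (ρ ε) := rfl
    rw [h9] at h8
    rw [map_div₀, norm_div, h6 w hw, h8, div_one]

lemma starkReal_mul {ι : Qbar →+* ℂ} {K H M : Sub} [NumberField K]
    {𝔪 : Ideals K} {art : Ideals K → GQ} (hart : SK.IsArtin K M 𝔪 art) (hLM : H ≤ M)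
    (hKH : K ≤ H) (hS : StarkReal ι K H 𝔪 art) (𝔟 : Ideals K) :
    𝔟 ≠ 0 → StarkReal ι K H (𝔪 * 𝔟) art := by
  induction 𝔟 using UniqueFactorizationMonoid.induction_on_prime with
  | h₁ => exact fun h => absurd rfl h
  | h₂ 𝔟 hu =>
    intro _
    have h1 : 𝔟 = 1 := by
      rw [Ideal.isUnit_iff] at hu
      rw [hu, Ideal.one_eq_top]
    rw [h1, mul_one]
    exact hS
  | h₃ 𝔟 P h0 hp ih =>
    intro _
    have ih := ih h0
    have hP : P.IsPrime := Ideal.isPrime_of_prime hp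
    have hP0 : P ≠ ⊥ := hp.ne_zero
    have e : 𝔪 * (P * 𝔟) = 𝔪 * 𝔟 * P := by rw [mul_comm P, mul_assoc]
    rw [e]
    by_cases hPg : IsCoprime P (𝔪 * 𝔟)
    · exact starkReal_prime hart hLM hKH (fun 𝔠 h => (IsCoprime.mul_right_iff.1 h).1) hP hP0 hPg ih
    · refine starkReal_modulus (fun 𝔠 => ?_) ih
      rw [IsCoprime.mul_right_iff (x := 𝔠) (y := 𝔪 * 𝔟) (z := P)]
      refine ⟨fun h => ⟨h, ?_⟩, fun h => h.1⟩
      rw [isCoprime_comm, isCoprime_prime_iff hP hP0, not_not] at hPg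
      rw [Ideal.isCoprime_iff_exists] at h ⊢
      obtain ⟨i, hi, j, hj, hij⟩ := h
      exact ⟨i, hi, j, hPg hj, hij⟩

/-- Representatives of the automorphisms fixing `H'` modulo those fixing `H`. -/
lemma exists_reps (H' H : Sub) [FiniteDimensional ℚ H] : ∃ R : Finset GQ,
    (∀ r ∈ R, Fixes H' r) ∧ (∀ g : GQ, Fixes H' g → ∃ r ∈ R, ∀ x ∈ H, g x = r x) ∧
    ∀ r ∈ R, ∀ r' ∈ R, (∀ x ∈ H, r x = r' x) → r = r' := by
  classical
  let F : GQ → (H →ₐ[ℚ] Qbar) := fun g => (g : Qbar →ₐ[ℚ] Qbar).comp H.val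
  have hF : ∀ g g' : GQ, F g = F g' ↔ ∀ x ∈ H, g x = g' x := by
    intro g g'
    constructor
    · intro h x hx
      exact DFunLike.congr_fun h ⟨x, hx⟩
    · intro h
      ext x
      exact h x x.2
  haveI : Finite (H →ₐ[ℚ] Qbar) := inferInstance
  haveI : Fintype (H →ₐ[ℚ] Qbar) := Fintype.ofFinite _
  let S : Finset (H →ₐ[ℚ] Qbar) := Finset.univ.filter fun φ => ∃ g : GQ, Fixes H' g ∧ F g = φ
  let pick : (H →ₐ[ℚ] Qbar) → GQ := fun φ =>
    if h : ∃ g : GQ, Fixes H' g ∧ F g = φ then h.choose else 1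
  have hpick : ∀ φ ∈ S, Fixes H' (pick φ) ∧ F (pick φ) = φ := by
    intro φ hφ
    have h : ∃ g : GQ, Fixes H' g ∧ F g = φ := (Finset.mem_filter.1 hφ).2
    simp only [pick, dif_pos h]
    exact h.choose_spec
  refine ⟨S.image pick, ?_, ?_, ?_⟩
  · intro r hr
    obtain ⟨φ, hφ, rfl⟩ := Finset.mem_image.1 hr
    exact (hpick φ hφ).1
  · intro g hg
    have h1 : F g ∈ S := Finset.mem_filter.2 ⟨Finset.mem_univ _, g, hg, rfl⟩
    exact ⟨pick (F g), Finset.mem_image_of_mem _ h1, (hF _ _).1 (hpick _ h1).2.symm⟩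
  · intro r hr r' hr' h
    obtain ⟨φ, hφ, rfl⟩ := Finset.mem_image.1 hr
    obtain ⟨φ', hφ', rfl⟩ := Finset.mem_image.1 hr'
    have h1 := (hF _ _).2 h
    rw [(hpick φ hφ).2, (hpick φ' hφ').2] at h1
    rw [h1]

/-- Counting by restriction. -/
lemma cnt_descent {K H' H : Sub} [NumberField K] (hle : H' ≤ H) {𝔣 : Ideals K}
    {art : Ideals K → GQ} {R : Finset GQ} (hR1 : ∀ r ∈ R, Fixes H' r)
    (hR2 : ∀ g : GQ, Fixes H' g → ∃ r ∈ R, ∀ x ∈ H, g x = r x)
    (hR3 : ∀ r ∈ R, ∀ r' ∈ R, (∀ x ∈ H, r x = r' x) → r = r') (σ : GQ) (n : ℕ) :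
    cnt K H' 𝔣 art σ n = ∑ r ∈ R, cnt K H 𝔣 art (σ * r) n := by
  classical
  by_cases hn : n = 0
  · -- only the zero ideal
    subst hn
    by_cases hc : IsCoprime (⊥ : Ideals K) 𝔣
    · by_cases hs : ∀ x ∈ H', art ⊥ x = σ x
      · obtain ⟨r, hr, hr2⟩ := hR2 (σ⁻¹ * art ⊥) (agree_iff.1 hs)
        have hr3 : ∀ x ∈ H, art ⊥ x = (σ * r) x := by
          intro x hx
          rw [AlgEquiv.mul_apply, ← hr2 x hx, AlgEquiv.mul_apply, AlgEquiv.aut_inv,
            AlgEquiv.apply_symm_apply]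
        have e1 : cnt K H' 𝔣 art σ 0 = 1 := by
          unfold cnt
          rw [Nat.card_eq_one_iff_unique]
          refine ⟨⟨fun x y => ?_⟩, ⟨⊥, by simp, hc, hs⟩⟩
          apply Subtype.ext
          rw [Ideal.absNorm_eq_zero_iff.1 x.2.1, Ideal.absNorm_eq_zero_iff.1 y.2.1]
        rw [e1, Finset.sum_eq_single r]
        · symm
          unfold cnt
          rw [Nat.card_eq_one_iff_unique]
          refine ⟨⟨fun x y => ?_⟩, ⟨⊥, by simp, hc, hr3⟩⟩
          apply Subtype.ext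
          rw [Ideal.absNorm_eq_zero_iff.1 x.2.1, Ideal.absNorm_eq_zero_iff.1 y.2.1]
        · intro r' hr' hne
          unfold cnt
          rw [Nat.card_eq_zero]
          left
          rw [isEmpty_subtype]
          rintro 𝔟 ⟨h1, h2, h3⟩
          rw [Ideal.absNorm_eq_zero_iff] at h1
          subst h1
          apply hne
          refine hR3 r' hr' r hr fun x hx => ?_
          apply σ.injective
          have h4 := h3 x hx
          rw [hr3 x hx] at h4
          exact h4.symm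
        · intro h
          exact absurd hr h
      · have e1 : cnt K H' 𝔣 art σ 0 = 0 := by
          unfold cnt
          rw [Nat.card_eq_zero]
          left
          rw [isEmpty_subtype]
          rintro 𝔟 ⟨h1, h2, h3⟩
          rw [Ideal.absNorm_eq_zero_iff] at h1
          subst h1
          exact hs h3
        rw [e1]
        symm
        refine Finset.sum_eq_zero fun r hr => ?_
        unfold cnt
        rw [Nat.card_eq_zero]
        left
        rw [isEmpty_subtype]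
        rintro 𝔟 ⟨h1, h2, h3⟩
        rw [Ideal.absNorm_eq_zero_iff] at h1
        subst h1
        apply hs
        intro x hx
        rw [h3 x (hle hx), AlgEquiv.mul_apply, hR1 r hr x hx]
    · have e : ∀ (L : Sub) (τ : GQ), cnt K L 𝔣 art τ 0 = 0 := by
        intro L τ
        unfold cnt
        rw [Nat.card_eq_zero]
        left
        rw [isEmpty_subtype]
        rintro 𝔟 ⟨h1, h2, h3⟩
        rw [Ideal.absNorm_eq_zero_iff] at h1
        subst h1
        exact hc h2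
      rw [e, Finset.sum_eq_zero fun r _ => e H (σ * r)]
  · have hfin : {𝔟 : Ideal (𝓞 K) | Ideal.absNorm 𝔟 = n}.Finite :=
      Ideal.finite_setOfPred_absNorm_eq n
    set A : GQ → Set (Ideal (𝓞 K)) := fun τ =>
      {𝔟 | Ideal.absNorm 𝔟 = n ∧ IsCoprime 𝔟 𝔣 ∧ ∀ x ∈ H, art 𝔟 x = τ x} with hA
    set B : Set (Ideal (𝓞 K)) :=
      {𝔟 | Ideal.absNorm 𝔟 = n ∧ IsCoprime 𝔟 𝔣 ∧ ∀ x ∈ H', art 𝔟 x = σ x} with hB
    have hAfin : ∀ τ, (A τ).Finite := fun τ => hfin.subset fun 𝔟 h => h.1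
    have e0 : cnt K H' 𝔣 art σ n = B.ncard := rfl
    have e1 : ∀ τ, cnt K H 𝔣 art τ n = (A τ).ncard := fun τ => rfl
    have hBU : B = ⋃ r ∈ R, A (σ * r) := by
      ext 𝔟
      simp only [Set.mem_iUnion]
      constructor
      · rintro ⟨h1, h2, h3⟩
        obtain ⟨r, hr, hr2⟩ := hR2 (σ⁻¹ * art 𝔟) (agree_iff.1 h3)
        refine ⟨r, hr, h1, h2, fun x hx => ?_⟩
        rw [AlgEquiv.mul_apply, ← hr2 x hx, AlgEquiv.mul_apply, AlgEquiv.aut_inv,
          AlgEquiv.apply_symm_apply]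
      · rintro ⟨r, hr, h1, h2, h3⟩
        refine ⟨h1, h2, fun x hx => ?_⟩
        rw [h3 x (hle hx), AlgEquiv.mul_apply, hR1 r hr x hx]
    have e2 : B.ncard = (R.biUnion fun r => (hAfin (σ * r)).toFinset).card := by
      rw [← Set.ncard_coe_finset]
      congr 1
      rw [hBU]
      ext 𝔟
      simp
    rw [e0, e2, Finset.card_biUnion]
    · refine Finset.sum_congr rfl fun r _ => ?_
      rw [e1, Set.ncard_eq_toFinset_card _ (hAfin _)]
    · intro r hr r' hr' hne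
      rw [Function.onFun, Finset.disjoint_left]
      intro 𝔟 h h'
      rw [Set.Finite.mem_toFinset] at h h'
      apply hne
      refine hR3 r hr r' hr' fun x hx => ?_
      apply σ.injective
      exact (h.2.2 x hx).symm.trans (h'.2.2 x hx)

/-- **Descent to subfields.** -/
lemma starkReal_descent {ι : Qbar →+* ℂ} {K H' H : Sub} [NumberField K] [FiniteDimensional ℚ H]
    (hle : H' ≤ H) (hKH' : K ≤ H') {𝔣 : Ideals K} {art : Ideals K → GQ}
    (hS : StarkReal ι K H 𝔣 art) : StarkReal ι K H' 𝔣 art := by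
  classical
  obtain ⟨Z, ε, h1, h2, h3, h4, h5, h6, h7⟩ := hS
  obtain ⟨R, hR1, hR2, hR3⟩ := exists_reps H' H
  have hRK : ∀ r ∈ R, Fixes K r := fun r hr => (hR1 r hr).mono hKH'
  have hr0 : ∀ r ∈ R, r ε ≠ 0 := fun r _ => by simpa using h2
  refine ⟨fun σ s => ∑ r ∈ R, Z (σ * r) s, ∏ r ∈ R, r ε, ?_, Finset.prod_ne_zero_iff.2 hr0, ?_, ?_,
    ?_, ?_, ?_⟩
  · -- membership
    apply mem_of_fixed
    intro τ hτ
    have hτK : Fixes K τ := hτ.mono hKH'
    rw [map_prod]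
    -- the permutation of the representatives
    have hex : ∀ r ∈ R, ∃ r' ∈ R, ∀ x ∈ H, (τ * r) x = r' x := fun r hr =>
      hR2 (τ * r) (hτ.mul (hR1 r hr))
    choose! π hπ1 hπ2 using hex
    refine Finset.prod_bij (fun r _ => π r) (fun r hr => hπ1 r hr) ?_ ?_ ?_
    · intro r hr r' hr' h
      refine hR3 r hr r' hr' fun x hx => ?_
      apply τ.injective
      have e1 := hπ2 r hr x hx
      have e2 := hπ2 r' hr' x hx
      rw [h] at e1
      exact e1.trans e2.symm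
    · intro r' hr'
      obtain ⟨r, hr, hr2⟩ := hR2 (τ⁻¹ * r') (hτ.inv.mul (hR1 r' hr'))
      refine ⟨r, hr, ?_⟩
      refine hR3 _ (hπ1 r hr) r' hr' fun x hx => ?_
      rw [← hπ2 r hr x hx, AlgEquiv.mul_apply, ← hr2 x hx, AlgEquiv.mul_apply, AlgEquiv.aut_inv,
        AlgEquiv.apply_symm_apply]
    · intro r hr
      exact hπ2 r hr ε h1
  · -- values
    intro σ hσ
    have g : ∀ r ∈ R, _ := fun r hr => h3 (σ * r) (hσ.mul (hRK r hr))
    refine ⟨⟨?_, ?_⟩, ?_, ?_⟩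
    · exact DifferentiableOn.fun_sum fun r hr => (g r hr).1.1
    · intro s hs
      have e1 := LSeriesHasSum.sum (S := R) (fun r hr => (g r hr).1.2 s hs)
      refine (LSeriesHasSum_congr s _ (fun {n} _ => ?_)).1 e1
      have e2 := cnt_descent hle (𝔣 := 𝔣) (art := art) hR1 hR2 hR3 σ n
      have e3 : Stmt.cnt K H' 𝔣 art σ n = ∑ r ∈ R, Stmt.cnt K H 𝔣 art (σ * r) n := e2
      rw [e3, Finset.sum_apply]
      push_cast
      rfl
    · exact Finset.sum_eq_zero fun r hr => (g r hr).2.1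
    · have hn : ({1}ᶜ : Set ℂ) ∈ nhds (0 : ℂ) := isOpen_compl_singleton.mem_nhds (by simp)
      have e1 : deriv (fun s => ∑ r ∈ R, Z (σ * r) s) 0 = ∑ r ∈ R, deriv (Z (σ * r)) 0 := by
        rw [deriv_fun_sum]
        exact fun r hr => (g r hr).1.1.differentiableAt hn
      rw [e1, Finset.mul_sum, Complex.exp_sum, map_prod, map_prod]
      exact Finset.prod_congr rfl fun r hr => (g r hr).2.2
  · exact IsIntegral.prod _ fun r _ => h4.map (r : Qbar →+* Qbar).toIntAlgHom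
  · rw [← Finset.prod_inv_distrib]
    refine IsIntegral.prod _ fun r _ => ?_
    rw [← map_inv₀]
    exact h5.map (r : Qbar →+* Qbar).toIntAlgHom
  · intro w hw
    rw [map_prod, norm_prod]
    refine Finset.prod_eq_one fun r hr => ?_
    have h8 : ‖(w.comp (r : Qbar →+* Qbar)) ε‖ = 1 := by
      refine h6 _ ?_
      obtain ⟨x, hx, hx2⟩ := hw
      refine ⟨x, hx, ?_⟩
      have h9 : (w.comp (r : Qbar →+* Qbar)) x = w x := congrArg w (hRK r hr x hx)
      rw [h9]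
      exact hx2
    exact h8
  · intro mu hmu σ τ hσ hτ
    obtain ⟨lam, hlam⟩ := IsAlgClosed.exists_pow_nat_eq ε two_pos
    set ν : Qbar := ∏ r ∈ R, r lam with hν
    have hν2 : ν ^ 2 = ∏ r ∈ R, r ε := by
      rw [hν, ← Finset.prod_pow]
      refine Finset.prod_congr rfl fun r _ => ?_
      rw [← map_pow, hlam]
    have hcν : σ (τ ν) = τ (σ ν) := by
      rw [hν, map_prod, map_prod, map_prod, map_prod]
      refine Finset.prod_congr rfl fun r hr => ?_
      have e1 : ∀ g : GQ, Fixes K g → g (r lam) = r (g lam) := fun g hg =>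
        h7 lam hlam g r hg (hRK r hr)
      have e2 : ∀ g g' : GQ, Fixes K g → Fixes K g' → g (g' (r lam)) = r (g (g' lam)) := by
        intro g g' hg hg'
        exact e1 (g * g') (hg.mul hg')
      rw [e2 σ τ hσ hτ, e2 τ σ hτ hσ, h7 lam hlam σ τ hσ hτ]
    have h8 : mu = ν ∨ mu = -ν := by
      rw [← sq_eq_sq_iff_eq_or_eq_neg, hmu, hν2]
    rcases h8 with h8 | h8
    · rw [h8, hcν]
    · rw [h8, map_neg, map_neg, map_neg, map_neg, hcν]

/-- The Artin symbols of `K` and of `k` for `E`, prime to `f`. -/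
structure Symbols (K k E : Sub) [NumberField K] [NumberField k] (f : ℕ)
    (artK : Ideals K → GQ) (art : Ideals k → GQ) : Prop where
  two_le : 2 ≤ f
  art_K : Stmt.IsArtin K E (principal K f) artK
  art_k : Stmt.IsArtin k E (principal k f) art

/-- **Stark units over real quadratic fields**, general form. -/
theorem stark_real_general (ι : Qbar →+* ℂ) (K k E H H' : Sub) [NumberField K] [NumberField k]
    (h : Fields ι K k E H) (hKH' : K ≤ H') (hH' : H' ≤ H) (f : ℕ) (artK : Ideals K → GQ)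
    (art : Ideals k → GQ) (hart : Symbols K k E f artK art) (W : ℕ) (hW : IsTorsionOrder E W)
    (hS : Stmt.StarkImQuad ι k E (principal k f) art W)
    (hA : ∀ a c c' g : GQ, IsTwist ι K k a c c' g →
      ArtinFormalism K k E H (principal K f) artK (principal k f) art a)
    (hO : ∀ a c c' g : GQ, IsTwist ι K k a c c' g → OrderTwo K H (principal K f) artK a)
    (𝔣 : Ideals K) (h𝔣 : PrimesOver K f 𝔣) : StarkReal ι K H' 𝔣 artK := by
  obtain ⟨a, c, c', g, t⟩ := exists_twist h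
  have h1 : StarkReal ι K H (principal K f) artK :=
    stark_real h t (principal k f) art (principal K f) artK hW hS (hA a c c' g t) (hO a c c' g t)
  have hHE : H ≤ E := fun x hx => ((h.mem_H x).1 hx).1
  haveI := h.finite
  haveI : FiniteDimensional ℚ H :=
    FiniteDimensional.of_injective (IntermediateField.inclusion hHE).toLinearMap
      (IntermediateField.inclusion hHE).injective
  have h2 := starkReal_descent hH' hKH' h1
  have h3 := starkReal_mul hart.art_K.down (hH'.trans hHE) hKH' h2 𝔣 h𝔣.1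
  refine starkReal_modulus (fun 𝔟 => ?_) h3
  rw [IsCoprime.mul_right_iff]
  refine ⟨fun h => h.2, fun h => ⟨?_, h⟩⟩
  rw [Ideal.isCoprime_iff_sup_eq]
  by_contra hne
  obtain ⟨P, hP, hle⟩ := Ideal.exists_le_maximal _ hne
  have hf' : (f : 𝓞 K) ∈ P := hle ((le_sup_right : _ ≤ 𝔟 ⊔ Ideal.span {(f : 𝓞 K)})
    (Ideal.mem_span_singleton_self _))
  apply hP.ne_top
  rw [Ideal.eq_top_iff_one]
  obtain ⟨i, hi, j, hj, hij⟩ := Ideal.isCoprime_iff_exists.1 h
  rw [← hij]
  exact P.add_mem (hle ((le_sup_left : 𝔟 ≤ 𝔟 ⊔ _) hi)) (h𝔣.2 P hP.isPrime hf' hj)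

end Pool.Agent.K4H33.SR
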