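import Pool.Agent.K4H33.SK.Stmt

/-! Stark units over real quadratic fields from elliptic units. -/

set_option autoImplicit false
set_option linter.style.haveILetI false

namespace Pool.Agent.K4H33.SR
open NumberField Module IntermediateField Pool.Agent.K4H33.SK
open Pool.Agent.K4H33.SK.Stmt (Sub Ideals nrm Cop prd principal cntAll PrimesOver)

/-- All automorphisms fixing `F` commute on `E`: if `E` is a normal extension containing `F`, it is
abelian over `F`. -/
def AbelianOver (F E : Sub) : Prop :=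
  ∀ σ τ : GQ, Fixes F σ → Fixes F τ → ∀ x ∈ E, σ (τ x) = τ (σ x)

/-- The fields: `K` is real quadratic, `k` imaginary quadratic, `E` is a finite normal extension of
`ℚ` containing both and abelian over both, and `H` is the maximal subfield of `E` which is real
under `ι`. -/
structure Fields (ι : Qbar →+* ℂ) (K k E H : Sub) : Prop where
  deg_K : finrank ℚ K = 2
  deg_k : finrank ℚ k = 2
  real_K : ∀ x ∈ K, (ι x).im = 0
  complex_k : ∃ x ∈ k, (ι x).im ≠ 0
  finite : FiniteDimensional ℚ E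
  normal : Normal ℚ E
  K_le : K ≤ E
  k_le : k ≤ E
  abelian_K : AbelianOver K E
  abelian_k : AbelianOver k E
  mem_H : ∀ x, x ∈ H ↔ x ∈ E ∧ (ι x).im = 0

/-- `a` is a product of the complex conjugations at two embeddings which differ on `K`. -/
structure IsTwist (ι : Qbar →+* ℂ) (K k : Sub) (a c c' g : GQ) : Prop where
  conj : ∀ x, ι (c x) = (starRingEnd ℂ) (ι x)
  g_k : Fixes k g
  g_K : ¬ Fixes K g
  rel : g * c' = c * g
  a_eq : a = c * c'

section

variable {ι : Qbar →+* ℂ} {K k E H : Sub} {a c c' g : GQ}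

lemma exists_twist (h : Fields ι K k E H) : ∃ a c c' g : GQ, IsTwist ι K k a c c' g := by
  obtain ⟨c, hc⟩ := exists_conj ι
  have h1 : ∃ g : GQ, Fixes k g ∧ ¬ Fixes K g := by
    by_contra hne
    push Not at hne
    have hle : K ≤ k := by
      intro x hx
      apply mem_of_fixed
      intro σ hσ
      exact hne σ hσ x hx
    haveI : FiniteDimensional ℚ k := FiniteDimensional.of_finrank_pos (by rw [h.deg_k]; norm_num)
    have heq : K = k := IntermediateField.eq_of_le_of_finrank_eq hle (by rw [h.deg_K, h.deg_k])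
    obtain ⟨x, hx, hx2⟩ := h.complex_k
    exact hx2 (h.real_K x (heq ▸ hx))
  obtain ⟨g, hg1, hg2⟩ := h1
  exact ⟨c * (g⁻¹ * c * g), c, g⁻¹ * c * g, g, hc, hg1, hg2, by group, rfl⟩

variable (h : Fields ι K k E H) (t : IsTwist ι K k a c c' g)
include h t

lemma cc : c * c = 1 := by
  ext x
  apply ι.injective
  rw [AlgEquiv.mul_apply, t.conj, t.conj, Complex.conj_conj, AlgEquiv.one_apply]

lemma c'_eq : c' = g⁻¹ * c * g := by rw [mul_assoc, ← t.rel]; group

lemma cc' : c' * c' = 1 := by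
  rw [c'_eq h t]
  calc g⁻¹ * c * g * (g⁻¹ * c * g) = g⁻¹ * (c * c) * g := by group
    _ = 1 := by rw [cc h t]; group

lemma c_K : Fixes K c := by
  intro x hx
  apply ι.injective
  rw [t.conj]
  exact Complex.conj_eq_iff_im.2 (h.real_K x hx)

lemma c_k : ¬ Fixes k c := by
  intro hc
  obtain ⟨x, hx, hx2⟩ := h.complex_k
  apply hx2
  have h1 := t.conj x
  rw [hc x hx] at h1
  exact Complex.conj_eq_iff_im.1 h1.symm

lemma c'_K : Fixes K c' := by
  rw [c'_eq h t]
  exact (c_K h t).conj' (quad_normal h.deg_K) g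

lemma c'_k : ¬ Fixes k c' := by
  intro hc
  apply c_k h t
  have h1 : c = g * c' * g⁻¹ := by rw [t.rel]; group
  rw [h1]
  exact hc.conj (quad_normal h.deg_k) g

lemma a_K : Fixes K a := by
  rw [t.a_eq]
  exact (c_K h t).mul (c'_K h t)

lemma a_k : Fixes k a := by
  rw [t.a_eq]
  exact quad h.deg_k (c_k h t) (c'_k h t)

lemma c'_root {ξ : Qbar} {n : ℕ} (hn : n ≠ 0) (hξ : ξ ^ n = 1) : c' ξ = ξ⁻¹ := by
  rw [c'_eq h t, AlgEquiv.mul_apply, AlgEquiv.mul_apply,
    conj_root t.conj hn (ξ := g ξ) (by rw [← map_pow, hξ, map_one]), AlgEquiv.aut_inv,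
    AlgEquiv.symm_apply_eq, map_inv₀]

lemma a_root {ξ : Qbar} {n : ℕ} (hn : n ≠ 0) (hξ : ξ ^ n = 1) : a ξ = ξ := by
  rw [t.a_eq, AlgEquiv.mul_apply, c'_root h t hn hξ, map_inv₀, conj_root t.conj hn hξ, inv_inv]

/-- `a` is an involution on `E`. -/
lemma a_sq {x : Qbar} (hx : x ∈ E) : a (a x) = x := by
  have h1 := h.abelian_K c a (c_K h t) (a_K h t)
  -- `c a c = a⁻¹`
  have h2 : c * a * c = a⁻¹ := by
    have e1 : c⁻¹ = c := inv_eq_of_mul_eq_one_left (cc h t)
    have e2 : c'⁻¹ = c' := inv_eq_of_mul_eq_one_left (cc' h t)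
    rw [t.a_eq, mul_inv_rev, e1, e2, ← mul_assoc, cc h t, one_mul]
  have hcx : c x ∈ E := normal_mem h.normal c hx
  have h3 := h1 (c x) hcx
  have h4 : c (a (c x)) = a⁻¹ x := by rw [← h2]; rfl
  have h5 : c (c x) = x := by
    rw [← AlgEquiv.mul_apply, cc h t, AlgEquiv.one_apply]
  rw [h4, h5] at h3
  rw [← h3, ← AlgEquiv.mul_apply, mul_inv_cancel, AlgEquiv.one_apply]

/-- elements fixing `K` and `k` are central on `E` -/
lemma central {b : GQ} (hbK : Fixes K b) (hbk : Fixes k b) (τ : GQ) {x : Qbar} (hx : x ∈ E) :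
    τ (b x) = b (τ x) := by
  by_cases h1 : Fixes K τ
  · exact h.abelian_K τ b h1 hbK x hx
  · by_cases h2 : Fixes k τ
    · exact h.abelian_k τ b h2 hbk x hx
    · -- `τ = g⁻¹ (g τ)` with `g τ` fixing `K`
      have h3 : Fixes K (g * τ) := quad h.deg_K t.g_K h1
      have h4 := h.abelian_K (g * τ) b h3 hbK x hx
      have h5 := h.abelian_k g b t.g_k hbk (τ x) (normal_mem h.normal τ hx)
      apply g.injective
      rw [h5]
      exact h4

/-- conjugates of `c` by automorphisms not fixing `K` are `c'` on `E` -/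
lemma conj_swap {τ : GQ} (hτ : ¬ Fixes K τ) {x : Qbar} (hx : x ∈ E) : τ (c x) = c (a (τ x)) := by
  have key : ∀ τ : GQ, Fixes k τ → ¬ Fixes K τ → ∀ x ∈ E, τ (c x) = c (a (τ x)) := by
    intro τ hk hK x hx
    have hb1 : Fixes K (g * τ) := quad h.deg_K t.g_K hK
    have hb2 : Fixes k (g * τ) := t.g_k.mul hk
    -- `g τ c x = c g τ x`
    have e1 : g (τ (c x)) = c (g (τ x)) := h.abelian_K (g * τ) c hb1 (c_K h t) x hx
    have e2 : c (g (τ x)) = g (c' (τ x)) := by
      have := congrArg (fun s : GQ => s (τ x)) t.rel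
      exact this.symm
    have e3 : τ (c x) = c' (τ x) := by
      apply g.injective
      rw [e1, e2]
    have e4 : c * a = c' := by rw [t.a_eq, ← mul_assoc, cc h t, one_mul]
    rw [e3, ← e4]
    rfl
  by_cases hk : Fixes k τ
  · exact key τ hk hτ x hx
  · have h1 : Fixes k (τ * c) := quad h.deg_k hk (c_k h t)
    have h2 : ¬ Fixes K (τ * c) := by
      intro h3
      apply hτ
      have h4 := h3.mul (c_K h t)
      rwa [mul_assoc, cc h t, mul_one] at h4
    have h3 := key (τ * c) h1 h2 (c x) (normal_mem h.normal c hx)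
    rw [AlgEquiv.mul_apply, AlgEquiv.mul_apply] at h3
    have h5 : c (c x) = x := by
      rw [← AlgEquiv.mul_apply, cc h t, AlgEquiv.one_apply]
    rw [h5] at h3
    exact h3

end

end Pool.Agent.K4H33.SR
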